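import Pool.Agent.H480.N4
import Pool.Agent.H480.U7

/-!
# Hadamard's and Borel's theorems on determinants, for Dirichlet series

Let `L(s) = ∏_p ∏_j (1 - α_j(p) p^(-s))⁻¹` be an Euler product with `|α_j(p)| ≤ p^w`; for example `L(E/K, s)` for an
elliptic curve `E` and a number field `K` (a place `v` of degree `f` above `p` contributes the `f`-th roots of the inverse
zeros of its factor). Let `a(n)` be its Dirichlet coefficients (any `a(n) = O(n^b)` is allowed) and let

  `V_λ(x) = ∑_n a(n) exp(- log(x/n)² / (2λ))`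

be their sum around `x`, smoothed by a Gaussian in the logarithmic scale. Fix `A, A' > 1` and let

  `D_k(X) = sup { |det (V_λ(X x_i y_j))_{i,j ≤ k}| : x_i ∈ [1, A], y_j ∈ [1, A'] }`,  `D_0 = 1`,

the largest `k × k` minor of the kernel `V_λ(X x y)` on the rectangle `[1, A] × [1, A']`.

Hadamard (1892) described the poles of a power series in terms of its Hankel determinants: the radius of the largest
disc in which the series is meromorphic with at most `r` poles is given by the quotients of the upper limits for `r + 1`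
and `r`; Borel (1894) characterised meromorphic functions by the growth of the determinants of size `r` as `r → ∞`. We
prove the analogues for Dirichlet series, for all `-∞ ≤ δ < ∞`:

1. `L(s)` continues to a meromorphic function on `Re s > δ` with at most `r` poles (with multiplicity), of growth
   `exp(C t²)` in vertical strips, for some `C`, if and only if for one `λ > 0` (equivalently, for all large `λ`) and
   for all `β > δ`, `D_{r+1}(X) ≤ X^β D_r(X)` for all large `X`; that is, the abscissa of meromorphy with `r` poles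
   is `limsup log(D_{r+1}(X) / D_r(X)) / log X`;
2. `L(s)` continues to a meromorphic function on `Re s > δ` with finitely many poles to the right of every line
   `Re s = δ' > δ`, of growth `exp(C t²)`, if and only if for one `λ > 0` and each `β > δ` there is ONE `r ≥ 1`
   with `D_r(X) ≤ X^(β r)` for all large `X` (equivalently, for all large `λ`, all `β > δ` and all large `r`).

With `δ = -∞` one gets meromorphy on the whole plane; with `r = 0`, holomorphy.

Proof. If `D_{r+1}(X) ≤ X^β D_r(X)` then, by Schur complements at nearly maximal minors (cross approximation), the kernel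
is within `2 X^β` of a kernel of rank `r`, at this scale. The approximations at different scales are unrelated;
the rigidity theorem of Pool.Agent.H480.K1 - K4 shows that the recurrences which they define are compatible, and
gives the continuation with at most `r` poles. Conversely, `V_λ(e^u)` is the inverse Laplace transform of
`√(2πλ) e^(λ s²/2) L(s)`. Moving the line of integration past the poles changes it by a function `E(u)`, for which
`E(u + v)` is a sum of `r` products (induction over the poles, from first order linear differential equations), and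
leaves `O(e^(σu))`, uniformly. A kernel within `ε` of rank `r`, uniformly, has
`D_{r+1} ≤ (r + 1)² ε D_r` (replace one row by a combination of the rows which vanishes for the kernel of rank `r`, and expand).
-/

set_option autoImplicit false

open Filter Topology MeasureTheory Set

namespace Pool.Agent.Results.MP_bf9450_nt.HadamardDeterminants

/-- `|a(n)| ≤ B n^b` -/
def PolynomiallyBounded (a : ℕ → ℂ) : Prop := ∃ b B : ℝ, ∀ n : ℕ, n ≠ 0 → ‖a n‖ ≤ B * (n : ℝ) ^ b

/-- the completely multiplicative function with the values `β p` at the primes `p` -/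
noncomputable def completelyMultiplicative (β : ℕ → ℂ) : ArithmeticFunction ℂ :=
  ⟨fun n => if n = 0 then 0 else n.factorization.prod fun p k => β p ^ k, by simp⟩

/-- the Dirichlet coefficients of `∏_p ∏_j (1 - α_j(p) p^(-s))⁻¹`: the Dirichlet convolution of the completely
multiplicative functions with the values `α_j(p)` -/
noncomputable def coeff {d : ℕ} (α : Fin d → ℕ → ℂ) : ArithmeticFunction ℂ := ∏ j, completelyMultiplicative (α j)

/-- the smoothed sum `V_λ(x) = ∑ a(n) exp(- log(x/n)² / (2λ))`, `n ≥ 1` -/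
noncomputable def V (a : ℕ → ℂ) (lam x : ℝ) : ℂ :=
  ∑' n : ℕ, if n = 0 then 0 else a n * (Real.exp (-Real.log (x / n) ^ 2 / (2 * lam)) : ℝ)

/-- the minor of the kernel `S(X x y)` at the points `x_i`, `y_j` -/
noncomputable def minor (S : ℝ → ℂ) (X : ℝ) {k : ℕ} (x y : Fin k → ℝ) : ℂ :=
  Matrix.det (Matrix.of fun i j => S (X * x i * y j))

/-- the largest `k × k` minor of the kernel `S(X x y)` on `[1, A] × [1, A']` -/
noncomputable def D (S : ℝ → ℂ) (A A' : ℝ) (k : ℕ) (X : ℝ) : ℝ :=
  ⨆ p : (Fin k → Icc (1:ℝ) A) × (Fin k → Icc (1:ℝ) A'), ‖minor S X (fun i => (p.1 i : ℝ)) (fun j => (p.2 j : ℝ))‖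

/-- the Dirichlet series `F(s) = ∑ a(n) n^(-s)` continues to the meromorphic function `g(s) / ∏ (s - ρ_j)` on
`Re s > δ`: `g` is holomorphic there, the `ρ_j` lie there, and the identity holds to the right of some line -/
structure Continuation (a : ℕ → ℂ) (δ : EReal) (r : ℕ) (ρ : Fin r → ℂ) (g : ℂ → ℂ) : Prop where
  poles : ∀ j, δ < ((ρ j).re : EReal)
  holo : ∀ s : ℂ, δ < (s.re : EReal) → DifferentiableAt ℂ g s
  eq : ∃ c : ℝ, ∀ s : ℂ, c < s.re → g s = (∏ j, (s - ρ j)) * LSeries a s

/-- `g(σ + it) = O(exp(C t²))` in each strip `σ₁ ≤ σ ≤ σ₂`, `σ₁ > δ` -/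
def Growth (δ : EReal) (C : ℝ) (g : ℂ → ℂ) : Prop :=
  ∀ σ₁ σ₂ : ℝ, δ < (σ₁ : EReal) → ∃ K : ℝ, ∀ s : ℂ, σ₁ ≤ s.re → s.re ≤ σ₂ → ‖g s‖ ≤ K * Real.exp (C * s.im ^ 2)

open Pool.Agent.H480.K in
theorem cont_iff {a : ℕ → ℂ} {δ : EReal} {r : ℕ} {ρ : Fin r → ℂ} {g : ℂ → ℂ} :
    Continuation a δ r ρ g ↔ Cont a δ r ρ g := ⟨fun h => ⟨h.1, h.2, h.3⟩, fun h => ⟨h.1, h.2, h.3⟩⟩

open Pool.Agent.H480.K in
theorem result :
    -- Euler products have polynomially bounded coefficients
    (∀ (d : ℕ) (w : ℝ) (α : Fin d → ℕ → ℂ), (∀ j, ∀ p : ℕ, p.Prime → ‖α j p‖ ≤ (p : ℝ) ^ w) →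
      PolynomiallyBounded (coeff α) ∧ ∀ s : ℂ, 1 < s.re → w + 1 < s.re →
        LSeries (coeff α) s = ∏' p : Nat.Primes, ∏ j, (1 - α j p * (p : ℂ) ^ (-s))⁻¹) ∧
    ∀ (a : ℕ → ℂ), PolynomiallyBounded a → ∀ A A' : ℝ, 1 < A → 1 < A' →
      -- the suprema are finite, and `D_0 = 1`
      (∀ lam : ℝ, 0 < lam → ∀ X : ℝ, 1 ≤ X → D (V a lam) A A' 0 X = 1 ∧ ∀ k : ℕ,
        BddAbove (range fun p : (Fin k → Icc (1:ℝ) A) × (Fin k → Icc (1:ℝ) A') =>
          ‖minor (V a lam) X (fun i => (p.1 i : ℝ)) (fun j => (p.2 j : ℝ))‖)) ∧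
      ∀ δ : EReal, δ < ⊤ →
        -- at most `r` poles: quotients of successive determinants
        (∀ r : ℕ, List.TFAE
          [∃ ρ g, Continuation a δ r ρ g ∧ ∃ C : ℝ, Growth δ C g,
           ∃ lam₀ : ℝ, ∀ lam : ℝ, lam₀ < lam → ∀ β : ℝ, δ < (β : EReal) → ∀ᶠ X : ℝ in atTop,
            D (V a lam) A A' (r + 1) X ≤ X ^ β * D (V a lam) A A' r X,
           ∃ lam : ℝ, 0 < lam ∧ ∀ β : ℝ, δ < (β : EReal) → ∀ᶠ X : ℝ in atTop,
            D (V a lam) A A' (r + 1) X ≤ X ^ β * D (V a lam) A A' r X]) ∧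
        -- finitely many poles to the right of every vertical line: growth of the determinants
        List.TFAE
          [∃ C : ℝ, ∀ δ' : ℝ, δ < (δ' : EReal) → ∃ r ρ g, Continuation a δ' r ρ g ∧ Growth δ' C g,
           ∃ lam₀ : ℝ, ∀ lam : ℝ, lam₀ < lam → ∀ β : ℝ, δ < (β : EReal) → ∀ᶠ r : ℕ in atTop, ∀ᶠ X : ℝ in atTop,
            D (V a lam) A A' r X ≤ X ^ (β * r),
           ∃ lam : ℝ, 0 < lam ∧ ∀ β : ℝ, δ < (β : EReal) → ∃ r : ℕ, r ≠ 0 ∧ ∀ᶠ X : ℝ in atTop,
            D (V a lam) A A' r X ≤ X ^ (β * r)] := by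
  refine ⟨fun d w α hα => ?_, fun a ha A A' hA hA' => ?_⟩
  · set θ : ℝ := max w 0 with hθ
    have hα' : ∀ j, ∀ p : ℕ, p.Prime → ‖α j p‖ ≤ (p : ℝ) ^ θ := fun j p hp =>
      (hα j p hp).trans (Real.rpow_le_rpow_of_exponent_le (by exact_mod_cast hp.one_lt.le) (le_max_left _ _))
    have e1 : coeff α = cf α 1 := by
      unfold cf
      rw [pow_one]
      rfl
    obtain ⟨b, -, hb⟩ := cf_bd (m := d) (θ := θ) (le_max_right _ _) 1
    refine ⟨⟨b, 1, fun n hn => ?_⟩, fun s h1 h2 => ?_⟩
    · rw [e1, one_mul]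
      exact hb α hα' n hn
    · have h3 : θ + 1 < s.re := by
        rcases max_choice w 0 with h | h
        · rw [hθ, h]; exact h2
        · rw [hθ, h]; linarith
      have h4 := (cf_series α hα' 1 h3).LSeries_eq
      rw [pow_one] at h4
      rw [e1]
      exact h4
  · obtain ⟨b, B, hB⟩ := ha
    have hB' : ∀ n : ℕ, n ≠ 0 → ‖a n‖ ≤ |B| * (n : ℝ) ^ b := fun n hn =>
      (hB n hn).trans (mul_le_mul_of_nonneg_right (le_abs_self _) (by positivity))
    refine ⟨fun lam hl X hX => ?_, fun δ hδ => ⟨fun r => ?_, ?_⟩⟩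
    · obtain ⟨M, κ, -, hMb⟩ := Kn_bd (abs_nonneg B) hB' hl hA hA'
      have _ : Nonempty (Icc (1:ℝ) A) := ⟨⟨1, le_rfl, hA.le⟩⟩
      have _ : Nonempty (Icc (1:ℝ) A') := ⟨⟨1, le_rfl, hA'.le⟩⟩
      refine ⟨DD_zero hA hA' (hMb X hX), fun k => ?_⟩
      exact Mx_bdd (hMb X hX) k
    · simp only [cont_iff]
      exact hada_tfae (abs_nonneg B) hB' hA hA' hδ r
    · simp only [cont_iff]
      exact borel_tfae (abs_nonneg B) hB' hA hA' hδ

end Pool.Agent.Results.MP_bf9450_nt.HadamardDeterminants
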