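import Mathlib
import Pool.Agent.H701.HW.SymEx

/-!
# Elliptic curves over fields of degree `N` whose Galois closure has group `S_N`

`M/K` is a Galois extension of number fields whose group `G = M ≃ₐ[K] M` is isomorphic to `S_N` (so `M`
is the Galois closure of a field of degree `N` over `K`, the generic case), or to a wreath product of
`S_N`, and `E` is an elliptic curve over `K` with an integral equation `W` (`IsModel E W`), automorphic
over `M`; in the problem `K = ℚ`. The analytic continuation of the functions `L(E/F, s)` of the fields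
`F` between `K` and `M` is meromorphic, and the question is whether they have poles. We show that a pole
at a point `s₀` with `Re s₀ ≥ 1` forces a zero of `L(E/M, s)` at `s₀` of order almost `N`: of order at
least `N - 1` if `N` is a prime power which is not prime, and of order at least the sum of the
`q_i - 1` for all prime powers `q_1, ..., q_m` with sum at most `N`, which is `N - O(log N)`. Over `K`
with root number one the bound doubles at the centre `s₀ = 1`.

The L-functions are real ones (the definitions are in the library, in `Q92/RT/Def`, `Q92/RT/Ind`,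
`Q7/RL/Ord`, `Q7/RL/Orders`, `Q7/RL/Model`):
* `LOrder E s₀ n`: the Euler product `L(E, s)` of the problem, computed from minimal models, has a
  meromorphic continuation to `ℂ`, of order `n` at `s₀`;
* `twistedL M W φ`: the function `L(E ⊗ φ, s)` for a class function `φ` of `G`, without the Euler factors
  at the primes dividing `6` or the discriminant of `W` or ramified in `M` (they have no zeros and poles
  for `Re s ≥ 1`); `HasOrder g s₀ n`: `g` has a meromorphic continuation to `ℂ`, of order `n` at `s₀`;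
* `induced H ψ`: the character of `G` induced by the linear character `ψ` of the subgroup `H`, so that
  `twistedL M W (induced H ψ)` is `L(E/M^H ⊗ ψ, s)`; `Irr G`: the irreducible characters;
* `Orders E W s₀ n r`: `n χ` is the order at `s₀` of `L(E ⊗ χ, s)`, `χ` irreducible, and `r F` is the
  order of `L(E/F, s)`, `K ⊆ F ⊆ M`; `⊤` is the field `M` and `⊥` the field `K`;
* `Automorphic M W s₀` (known if `E` is modular over `M`, by Brauer induction and solvable descent): the
  `L(E ⊗ χ, s)`, `χ` irreducible, have a meromorphic continuation, and the `L(E/M^H ⊗ ψ, s)` with `H`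
  SOLVABLE have one that is holomorphic at `s₀`; nothing is known for the other subgroups;
* `FunctionalEquations M W`: the functional equations `Λ(χ, s) = w(χ) Λ(χ̄, 2 - s)` near `s = 1`, and
  `HW.RealRootOne M W Λ`: the root number `w(χ)` is `1` for all real valued `χ`. If the real places of
  `K` are unramified in `M` and the places of bad reduction split completely in `M` then
  `w(χ) = w(E/K) ^ χ(1)`, so this means `w(E/K) = 1`.

From `Pool/Agent/H377/AD/Defs`: `Rigid b X`: every class function on `X` of degree less than `b` with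
nonnegative multiplicities on the solvable subgroups is constant on the commutator subgroup.
-/

set_option autoImplicit false

open NumberField Subgroup Pool.Agent.H541R3.ART Pool.Agent.W446.AS Pool.Agent.Q7.RL
  Pool.Agent.Q92.RT Pool.Agent.W353.NF Pool.Agent.H341R2.EC Pool.Agent.H377.AD
  Pool.Agent.H701.HW
open scoped commutatorElement

namespace Pool.Agent.Results.MP_bf9450_nt.SymmetricGroupFields

/-- (A) The degree below which `S_N` is rigid. 1. Let `q_i ≥ 3` be prime powers with sum at most `N`,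
and `2 p ≤ N` for the primes `p` dividing some `q_i`. Then `S_N` is rigid below the sum of the
`q_i - 1`. 2. If `N = p ^ a`, `a ≥ 2`, then `S_N` is rigid below `N - 1`. 3. `S_N` is rigid below
`N - 2 - log₂ N` for all `N ≥ 5`. 4. It is not rigid below `N` (the standard character has the degree
`N - 1`). -/
def Degrees : Prop :=
  (∀ (N : ℕ) (ι : Type) [Fintype ι] (q : ι → ℕ), 5 ≤ N → (∀ i, IsPrimePow (q i)) →
    (∀ i, 3 ≤ q i) → (∀ i, 2 * (q i).minFac ≤ N) → ∑ i, q i ≤ N →
    Rigid (∑ i, (q i - 1)) (Equiv.Perm (Fin N))) ∧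
  (∀ N p a : ℕ, 5 ≤ N → p.Prime → 2 ≤ a → N = p ^ a → Rigid (N - 1) (Equiv.Perm (Fin N))) ∧
  (∀ N : ℕ, 5 ≤ N → Rigid (N - 2 - Nat.log 2 N) (Equiv.Perm (Fin N))) ∧
  (∀ N : ℕ, 3 ≤ N → ¬ Rigid N (Equiv.Perm (Fin N)))

section

variable {K : Type} (M : Type) [Field K] [NumberField K] [Field M] [NumberField M] [Algebra K M]
  [IsGalois K M] (W : WeierstrassCurve (𝓞 K)) (s₀ : ℂ) (n : ((M ≃ₐ[K] M) → ℂ) → ℤ)
  (r : IntermediateField K M → ℤ) (k c : ℕ)

/-- `L(E/F, s)` and all `L(E/F ⊗ ψ, s)`, `ψ` a linear character of `Gal(M/F)`, are holomorphic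
at `s₀`, for all `K ⊆ F ⊆ M`. -/
def Holomorphic : Prop :=
  (∀ F, 0 ≤ r F) ∧ ∀ (H : Subgroup (M ≃ₐ[K] M)) (ψ : H →* ℂˣ),
    ∃ l : ℤ, 0 ≤ l ∧ HasOrder (twistedL M W (induced H ψ)) s₀ l

/-- Let `G` be isomorphic to `S_N`, `N ≥ 5`, rigid below `b`, and `k < c b`. Then all `L(E ⊗ χ, s)`,
`L(E/F, s)` and `L(E/F ⊗ ψ, s)` are holomorphic at `s₀`, and `L(E ⊗ χ, s₀) ≠ 0` if `χ(1) ≠ 1`. The
fixed field `Q = K(√d)` of the commutator subgroup has degree `2` over `K`; `L(E/F, s)` has the same
order at `s₀` as `L(E/Q, s)` if `F` contains `Q`, and the same order as `L(E/K, s)` otherwise. -/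
def SymmetricGroups : Prop :=
  ∀ N b : ℕ, 5 ≤ N → Rigid b (Equiv.Perm (Fin N)) → k < c * b →
    Nonempty ((M ≃ₐ[K] M) ≃* Equiv.Perm (Fin N)) →
    Holomorphic M W s₀ r ∧
    (∀ χ ∈ Irr (M ≃ₐ[K] M), 0 ≤ n χ ∧ (χ 1 ≠ 1 → n χ = 0)) ∧
    ∃ Q : IntermediateField K M, Module.finrank K Q = 2 ∧
      ∀ F : IntermediateField K M, (Q ≤ F → r F = r Q) ∧ (¬ Q ≤ F → r F = r ⊥)

/-- Let `G` be isomorphic to the wreath product of `S_N`, rigid below `b`, with `Q`, and
`k < c b |Q|`. If `Q` is solvable, then all `L(E/F, s)` and `L(E/F ⊗ ψ, s)`, `K ⊆ F ⊆ M`, are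
holomorphic at `s₀`. If `Q` is abelian, then all `L(E ⊗ χ, s)` are holomorphic at `s₀`. -/
def WreathProducts : Prop :=
  ∀ (Q : Type) [Group Q] [Finite Q] (N b : ℕ), Rigid b (Equiv.Perm (Fin N)) →
    k < c * (b * Nat.card Q) →
    Nonempty ((M ≃ₐ[K] M) ≃* RegularWreathProduct (Equiv.Perm (Fin N)) Q) →
    (Group.IsSolvable Q → Holomorphic M W s₀ r) ∧
    ((∀ x y : Q, x * y = y * x) → ∀ χ ∈ Irr (M ≃ₐ[K] M), 0 ≤ n χ)

variable {M W s₀ n r k c}

/-- auxiliary: from families of commuting ambivalent subgroups to the two statements above -/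
private lemma of_families
    (fam : ∀ (ι : Type) [Finite ι] (X : ι → Subgroup (M ≃ₐ[K] M)), Family (k / c) X →
      (∀ i, Ambivalent (X i)) →
      ((∀ χ ∈ Irr (M ≃ₐ[K] M), (∃ x ∈ (⨆ i, ⁅X i, X i⁆ : Subgroup (M ≃ₐ[K] M)), χ x ≠ χ 1) →
        n χ = 0) ∧
        ∀ F : IntermediateField K M, r F = r (F ⊓ IntermediateField.fixedField (⨆ i, ⁅X i, X i⁆))) ∧
      ((∃ j, derivedSeries (M ≃ₐ[K] M) j ≤ ⨆ i, X i) → Holomorphic M W s₀ r) ∧
      (commutator (M ≃ₐ[K] M) ≤ ⨆ i, X i → ∀ χ ∈ Irr (M ≃ₐ[K] M), 0 ≤ n χ)) :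
    SymmetricGroups M W s₀ n r k c ∧ WreathProducts M W s₀ n r k c := by
  refine ⟨?_, ?_⟩
  · rintro N b hN hb hlt ⟨e⟩
    have hA : Ambivalent (M ≃ₐ[K] M) :=
      ambivalent_perm.of_surj (f := e.symm.toMonoidHom) e.symm.surjective
    have hR : Rigid b (M ≃ₐ[K] M) := hb.of_surj e.symm.toMonoidHom e.symm.surjective
    obtain ⟨h2, h3, h4⟩ := fam Unit _ (family_top hR (r := k / c) (Nat.div_lt_of_lt_mul hlt))
      (fun _ => ambivalent_top hA)
    rw [iSup_comm_top] at h2
    have htop : (⨆ _ : Unit, (⊤ : Subgroup (M ≃ₐ[K] M))) = ⊤ := iSup_const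
    obtain ⟨h5, h6⟩ := quad_field (K := K) (M := M) (index_comm_sym hN e)
    refine ⟨h3 ⟨0, by rw [htop]; exact le_top⟩, fun χ hχ => ⟨h4 (by rw [htop]; exact le_top) χ hχ,
      fun hne => ?_⟩, _, h5, fun F => ⟨fun hF => ?_, fun hF => ?_⟩⟩
    · apply h2.1 χ hχ
      by_contra hcon
      push Not at hcon
      exact hne (deg_one_of_comm hχ hcon)
    · rw [h2.2 F, (h6 F).1 hF]
    · rw [h2.2 F, (h6 F).2 hF]
  · rintro Q _ _ N b hb hlt ⟨e⟩
    have hfin : Finite (RegularWreathProduct (Equiv.Perm (Fin N)) Q) := Finite.of_equiv _ e.toEquiv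
    have hF := (wreath_family (T := Equiv.Perm (Fin N)) (Q := Q) hb
      (Nat.div_lt_of_lt_mul hlt)).of_equiv e
    have hle : ∀ S : Subgroup (M ≃ₐ[K] M), (∀ x ∈ S, (e x).right = 1) →
        S ≤ ⨆ q : Q, ((copy (Equiv.Perm (Fin N)) q).range).comap e.toMonoidHom := by
      intro S hS x hx
      have h1 := base_le (e x) (hS x hx)
      have h2 : x = e.symm (e x) := (e.symm_apply_apply x).symm
      rw [h2]
      have h3 : (⨆ q : Q, (copy (Equiv.Perm (Fin N)) q).range :
          Subgroup (RegularWreathProduct (Equiv.Perm (Fin N)) Q)) ≤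
          (⨆ q : Q, ((copy (Equiv.Perm (Fin N)) q).range).comap e.toMonoidHom).comap
            e.symm.toMonoidHom := by
        refine iSup_le fun q y hy => ?_
        rw [Subgroup.mem_comap]
        refine (le_iSup (fun q : Q =>
          ((copy (Equiv.Perm (Fin N)) q).range).comap e.toMonoidHom) q) ?_
        rw [Subgroup.mem_comap]
        change e (e.symm y) ∈ _
        rw [e.apply_symm_apply]
        exact hy
      exact h3 h1
    obtain ⟨-, h3, h4⟩ := fam Q _ hF (fun q => ambivalent_copy ambivalent_perm e q)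
    let ρ : (M ≃ₐ[K] M) →* Q := RegularWreathProduct.rightHom.comp e.toMonoidHom
    refine ⟨fun hQ => h3 ?_, fun hQ => h4 ?_⟩
    · obtain ⟨j, hj⟩ := (Group.isSolvable_def Q).mp hQ
      refine ⟨j, hle _ fun x hx => ?_⟩
      have h5 : ρ x ∈ derivedSeries Q j :=
        map_derivedSeries_le_derivedSeries (f := ρ) j ⟨x, hx, rfl⟩
      rw [hj, Subgroup.mem_bot] at h5
      exact h5
    · refine hle _ fun x hx => ?_
      have h5 : commutator (M ≃ₐ[K] M) ≤ ρ.ker := by
        rw [commutator_def, Subgroup.commutator_le]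
        intro x _ y _
        rw [MonoidHom.mem_ker, map_commutatorElement, commutatorElement_eq_one_iff_mul_comm]
        exact hQ _ _
      exact h5 hx

end

/-- **Fields with Galois group `S_N`.**
(A) The degrees below which `S_N` is rigid: `N - 1` for `N = p ^ a`, `a ≥ 2`; the sum of the `q_i - 1`
for prime powers `q_i` with sum at most `N`; `N - 2 - log₂ N` for all `N ≥ 5`; never `N`.
(B) Let `E/K` be automorphic over the Galois extension `M/K` with group `G`, `Re s₀ ≥ 1`, let `n χ` and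
`r F` be the orders at `s₀` of `L(E ⊗ χ, s)` and `L(E/F, s)`, and let `k` be the order of `L(E/M, s)`.
1. Let `G` be `S_N`, rigid below `b`, and `k < b`. Then all `L(E/F, s)`, `L(E/F ⊗ ψ, s)` and
   `L(E ⊗ χ, s)` are holomorphic at `s₀`, the last ones nonzero at `s₀` if `χ(1) ≠ 1`, and the order of
   `L(E/F, s)` is the order of `L(E/K(√d), s)` or of `L(E/K, s)`, according to whether `F` contains the
   quadratic field `K(√d)`, the fixed field of the commutator subgroup, or not.
2. Let `G` be the wreath product of `S_N`, rigid below `b`, with a solvable (abelian) group `Q`, and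
   `k < b |Q|`. Then all `L(E/F, s)` and `L(E/F ⊗ ψ, s)` (all `L(E ⊗ χ, s)`) are holomorphic at `s₀`.
(C) For `s₀ = 1` and root number `1` for the real characters, 1. and 2. hold for `k < 2 b` and
`k < 2 b |Q|`. -/
theorem result :
    Degrees ∧
    (∀ (K M : Type) [Field K] [NumberField K] [Field M] [NumberField M] [Algebra K M]
      [IsGalois K M] (E : WeierstrassCurve K) (_ : E.IsElliptic) (W : WeierstrassCurve (𝓞 K))
      (_ : IsModel E W) (s₀ : ℂ) (_ : 1 ≤ s₀.re) (_ : Automorphic M W s₀),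
      ∃ (n : ((M ≃ₐ[K] M) → ℂ) → ℤ) (r : IntermediateField K M → ℤ) (k : ℕ),
        Orders E W s₀ n r ∧ r ⊤ = k ∧ SymmetricGroups M W s₀ n r k 1 ∧
        WreathProducts M W s₀ n r k 1) ∧
    (∀ (K M : Type) [Field K] [NumberField K] [Field M] [NumberField M] [Algebra K M]
      [IsGalois K M] (E : WeierstrassCurve K) (_ : E.IsElliptic) (W : WeierstrassCurve (𝓞 K))
      (_ : IsModel E W) (_ : Automorphic M W 1) (Λ : FunctionalEquations M W)
      (_ : RealRootOne M W Λ),
      ∃ (n : ((M ≃ₐ[K] M) → ℂ) → ℤ) (r : IntermediateField K M → ℤ) (k : ℕ),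
        Orders E W 1 n r ∧ r ⊤ = k ∧ SymmetricGroups M W 1 n r k 2 ∧
        WreathProducts M W 1 n r k 2) := by
  refine ⟨⟨fun N ι _ q hN h1 h2 h3 h4 => rigid_blocks hN q h1 h2 h3 h4,
    fun N p a hN hp ha h => rigid_prime_pow hN hp ha h, fun N hN => rigid_log hN,
    fun N hN => not_rigid hN⟩, ?_, ?_⟩
  · intro K M _ _ _ _ _ _ E hE W hW s₀ hs a
    obtain ⟨n, r, ho⟩ := exists_orders (M := M) hE hW hs a
    obtain ⟨k, hk⟩ := Int.eq_ofNat_of_zero_le (ho.nonneg hE hW hs a)
    refine ⟨n, r, k, ho, hk, of_families ?_⟩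
    intro ι _ X hX _
    rw [Nat.div_one] at hX
    have hL := hX.layered
    refine ⟨⟨fun χ hχ h => curve_zero hE hW hs a ho hk hL hχ h,
      fun F => curve_field hE hW hs a ho hk hL F⟩, ?_, ?_⟩
    · rintro ⟨j, hj⟩
      have h1 := hX.derived_le hj
      exact ⟨fun F => curve_field_sol hE hW hs a ho hk hL h1 F,
        fun H ψ => curve_hol_sol hE hW hs a ho hk hL h1 H ψ⟩
    · intro hc χ hχ
      exact curve_met hE hW hs a ho hk hL (hX.derived_le (k := 1)
        (by rw [derivedSeries_one]; exact hc)) hχ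
  · intro K M _ _ _ _ _ _ E hE W hW a Λ hΛ
    obtain ⟨n, r, ho⟩ := exists_orders (M := M) hE hW (by simp) a
    obtain ⟨k, hk⟩ := Int.eq_ofNat_of_zero_le (ho.nonneg hE hW (by simp) a)
    refine ⟨n, r, k, ho, hk, of_families ?_⟩
    intro ι _ X hX ha
    have hL : CLayered k (⨆ i, ⁅X i, X i⁆ : Subgroup (M ≃ₐ[K] M)) :=
      CLayered.of_family (Or.inr ⟨hX, ha⟩)
    refine ⟨⟨fun χ hχ h => cz_zero hE hW hΛ a ho hk hL hχ h,
      fun F => cz_field hE hW hΛ a ho hk hL F⟩, ?_, ?_⟩
    · rintro ⟨j, hj⟩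
      have h1 := hX.derived_le hj
      exact ⟨fun F => cz_field_sol hE hW hΛ a ho hk hL h1 F,
        fun H ψ => cz_hol_sol hE hW hΛ a ho hk hL h1 H ψ⟩
    · intro hc χ hχ
      exact cz_met hE hW hΛ a ho hk hL (hX.derived_le (k := 1)
        (by rw [derivedSeries_one]; exact hc)) hχ

end Pool.Agent.Results.MP_bf9450_nt.SymmetricGroupFields
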